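import Mathlib

set_option autoImplicit false

/-!
# An estimate
-/

namespace Pool.Agent.U797.CB

open Filter Asymptotics

theorem floor_estimate {ε c C : ℝ} (hε : 0 < ε) (hε1 : ε < 1) (hc : 0 < c) (hC : 0 < C) (j : ℕ) :
    ∀ᶠ x : ℝ in atTop, 1 ≤ x ∧ ∀ d : ℕ, (d : ℝ) ≤ x ^ (1 + ε / 4) →
      x ^ (ε / 4) < (⌊x / (C * Real.log x ^ j)⌋₊ : ℝ) * (c / (1 + (d : ℝ)) ^ (1 - ε)) := by
  have E1 : ∀ᶠ x : ℝ in atTop, Real.log x ^ j ≤ x ^ (ε / 4) := by
    have h1 := isLittleO_log_rpow_rpow_atTop (j : ℝ) (show 0 < ε / 4 by positivity)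
    have h2 := h1.bound (show (0 : ℝ) < 1 by norm_num)
    filter_upwards [h2, eventually_ge_atTop (1 : ℝ)] with x hx hx1
    have h3 : 0 ≤ Real.log x := Real.log_nonneg hx1
    rw [one_mul, Real.norm_of_nonneg (Real.rpow_nonneg h3 _), Real.rpow_natCast,
      Real.norm_of_nonneg (Real.rpow_nonneg (by linarith) _)] at hx
    exact hx
  have E2 : ∀ᶠ x : ℝ in atTop, 8 * C / c < x ^ (ε / 4) :=
    (tendsto_rpow_atTop (show 0 < ε / 4 by positivity)).eventually_gt_atTop _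
  have E3 : ∀ᶠ x : ℝ in atTop, 2 * C ≤ x ^ (1 - ε / 4) :=
    (tendsto_rpow_atTop (show 0 < 1 - ε / 4 by linarith)).eventually_ge_atTop _
  filter_upwards [E1, E2, E3, eventually_ge_atTop (1 : ℝ), eventually_gt_atTop (Real.exp 1)]
    with x h1 h2 h3 h4 h5
  refine ⟨h4, fun d hd => ?_⟩
  have hx : 0 < x := by linarith
  have hlog : 1 ≤ Real.log x := by
    rw [Real.le_log_iff_exp_le hx]
    exact h5.le
  have hlj : 1 ≤ Real.log x ^ j := one_le_pow₀ hlog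
  obtain ⟨L, hL⟩ : ∃ L : ℝ, L = Real.log x ^ j := ⟨_, rfl⟩
  rw [← hL] at h1 hlj ⊢
  have hL0 : 0 < L := by linarith
  -- the number of colours
  have hXL : x / (C * x ^ (ε / 4)) ≤ x / (C * L) := by
    apply div_le_div_of_nonneg_left hx.le (by positivity)
    exact mul_le_mul_of_nonneg_left h1 hC.le
  have e1 : x / (C * x ^ (ε / 4)) = x ^ (1 - ε / 4) / C := by
    rw [Real.rpow_sub hx, Real.rpow_one]
    field_simp
  have h6 : 2 ≤ x ^ (1 - ε / 4) / C := by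
    rw [le_div_iff₀ hC]
    exact h3
  have h7 : x ^ (1 - ε / 4) / (2 * C) ≤ (⌊x / (C * L)⌋₊ : ℝ) := by
    have h8 := Nat.lt_floor_add_one (x / (C * L))
    have h9 : x ^ (1 - ε / 4) / (2 * C) = x ^ (1 - ε / 4) / C / 2 := by
      field_simp
    rw [h9]
    rw [e1] at hXL
    linarith
  -- the degeneracy
  have h10 : (1 + (d : ℝ)) ^ (1 - ε) ≤ 2 * x ^ (1 - 3 * ε / 4) := by
    have a1 : 1 ≤ x ^ (1 + ε / 4) := Real.one_le_rpow h4 (by linarith)
    have a2 : 1 + (d : ℝ) ≤ 2 * x ^ (1 + ε / 4) := by linarith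
    calc (1 + (d : ℝ)) ^ (1 - ε) ≤ (2 * x ^ (1 + ε / 4)) ^ (1 - ε) :=
          Real.rpow_le_rpow (by positivity) a2 (by linarith)
      _ = 2 ^ (1 - ε) * x ^ ((1 + ε / 4) * (1 - ε)) := by
          rw [Real.mul_rpow (by norm_num) (by positivity), ← Real.rpow_mul hx.le]
      _ ≤ 2 * x ^ (1 - 3 * ε / 4) := by
          apply mul_le_mul _ _ (by positivity) (by norm_num)
          · calc (2 : ℝ) ^ (1 - ε) ≤ 2 ^ (1 : ℝ) :=
                  Real.rpow_le_rpow_of_exponent_le (by norm_num) (by linarith)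
              _ = 2 := Real.rpow_one 2
          · apply Real.rpow_le_rpow_of_exponent_le h4
            nlinarith [mul_pos hε hε]
  have h11 : c / (2 * x ^ (1 - 3 * ε / 4)) ≤ c / (1 + (d : ℝ)) ^ (1 - ε) :=
    div_le_div_of_nonneg_left hc.le (by positivity) h10
  have h12 : x ^ (1 - ε / 4) / (2 * C) * (c / (2 * x ^ (1 - 3 * ε / 4))) ≤
      (⌊x / (C * L)⌋₊ : ℝ) * (c / (1 + (d : ℝ)) ^ (1 - ε)) :=
    mul_le_mul h7 h11 (by positivity) (Nat.cast_nonneg _)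
  refine lt_of_lt_of_le ?_ h12
  have e2 : x ^ (1 - ε / 4) = x ^ (ε / 4) * x ^ (ε / 4) * x ^ (1 - 3 * ε / 4) := by
    rw [← Real.rpow_add hx, ← Real.rpow_add hx]
    congr 1
    ring
  have e3 : x ^ (1 - ε / 4) / (2 * C) * (c / (2 * x ^ (1 - 3 * ε / 4))) =
      x ^ (ε / 4) * (x ^ (ε / 4) * c / (4 * C)) := by
    rw [e2]
    have : 0 < x ^ (1 - 3 * ε / 4) := by positivity
    field_simp
    ring
  rw [e3]
  have h13 : 0 < x ^ (ε / 4) := by positivity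
  have h14 : 1 < x ^ (ε / 4) * c / (4 * C) := by
    rw [lt_div_iff₀ (by positivity)]
    rw [div_lt_iff₀ hc] at h2
    linarith
  calc x ^ (ε / 4) = x ^ (ε / 4) * 1 := (mul_one _).symm
    _ < _ := mul_lt_mul_of_pos_left h14 h13

end Pool.Agent.U797.CB
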