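import Pool.Agent.Results.MP_763321_co.Orientations

set_option autoImplicit false

/-!
# Colourings of graphs without an induced forest
-/

namespace Pool.Agent.U797.CB

open Finset

open Classical in
/-- an independent set with many vertices of `U` -/
theorem indep_of_random {V : Type} [Fintype V] {G : SimpleGraph V} {p : Finset V → ℝ}
    (hp0 : ∀ I, 0 ≤ p I) (hp1 : ∑ I, p I = 1) (hind : ∀ I, p I ≠ 0 → G.IsIndepSet (I : Set V))
    {a : ℝ} (hprob : ∀ v, a ≤ ∑ I ∈ univ.filter (fun I => v ∈ I), p I) (U : Finset V) :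
    ∃ I : Finset V, G.IsIndepSet (I : Set V) ∧ a * U.card ≤ ((U.filter (fun v => v ∈ I)).card : ℝ) := by
  by_contra hcon
  push Not at hcon
  have h1 : ∑ I, p I * ((U.filter (fun v => v ∈ I)).card : ℝ) =
      ∑ v ∈ U, ∑ I ∈ univ.filter (fun I => v ∈ I), p I := by
    have e1 : ∀ I : Finset V, p I * ((U.filter (fun v => v ∈ I)).card : ℝ) =
        ∑ v ∈ U, if v ∈ I then p I else 0 := by
      intro I
      rw [card_filter]
      push_cast
      rw [mul_sum]
      refine sum_congr rfl fun v _ => ?_
      split_ifs <;> simp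
    rw [sum_congr rfl (fun I _ => e1 I), sum_comm]
    refine sum_congr rfl fun v _ => ?_
    rw [sum_filter]
  have h2 : a * U.card ≤ ∑ v ∈ U, ∑ I ∈ univ.filter (fun I => v ∈ I), p I := by
    calc a * U.card = ∑ _v ∈ U, a := by rw [sum_const, nsmul_eq_mul, mul_comm]
      _ ≤ _ := sum_le_sum fun v _ => hprob v
  have h3 : ∑ I, p I * ((U.filter (fun v => v ∈ I)).card : ℝ) < ∑ I, p I * (a * U.card) := by
    obtain ⟨J, -, hJ⟩ : ∃ J ∈ (univ : Finset (Finset V)), p J ≠ 0 := by
      apply exists_ne_zero_of_sum_ne_zero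
      rw [hp1]
      exact one_ne_zero
    apply sum_lt_sum
    · intro I _
      by_cases hI : p I = 0
      · rw [hI, zero_mul, zero_mul]
      · exact mul_le_mul_of_nonneg_left (hcon I (hind I hI)).le (hp0 I)
    · exact ⟨J, mem_univ _, mul_lt_mul_of_pos_left (hcon J (hind J hJ))
        (lt_of_le_of_ne (hp0 J) (Ne.symm hJ))⟩
  rw [← sum_mul, hp1, one_mul, h1] at h3
  linarith

open Classical in
/-- **From a random independent set to a colouring.** -/
theorem colour_of_random {V : Type} [Fintype V] {G : SimpleGraph V} {p : Finset V → ℝ}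
    (hp0 : ∀ I, 0 ≤ p I) (hp1 : ∑ I, p I = 1) (hind : ∀ I, p I ≠ 0 → G.IsIndepSet (I : Set V))
    {a : ℝ} (hprob : ∀ v, a ≤ ∑ I ∈ univ.filter (fun I => v ∈ I), p I) (N : ℕ)
    (hN : (Fintype.card V : ℝ) * Real.exp (-(N * a)) < 1) : G.Colorable N := by
  have step : ∀ j : ℕ, ∃ (U : Finset V) (C : V → ℕ), (∀ v, v ∉ U → C v < j) ∧
      (∀ v, v ∉ U → ∀ w, w ∉ U → G.Adj v w → C v ≠ C w) ∧
      (U.card : ℝ) ≤ Fintype.card V * Real.exp (-(j * a)) := by
    intro j
    induction j with
    | zero =>
      refine ⟨univ, fun _ => 0, fun v hv => absurd (mem_univ v) hv,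
        fun v hv => absurd (mem_univ v) hv, ?_⟩
      simp
    | succ j ih =>
      obtain ⟨U, C, h1, h2, h3⟩ := ih
      obtain ⟨I, hI, hIU⟩ := indep_of_random hp0 hp1 hind hprob U
      refine ⟨U.filter (fun v => ¬ v ∈ I), fun v => if v ∈ U then j else C v, ?_, ?_, ?_⟩
      · intro v _
        dsimp only
        by_cases hvU : v ∈ U
        · rw [if_pos hvU]
          omega
        · rw [if_neg hvU]
          have := h1 v hvU
          omega
      · intro v hv w hw hvw
        have hv' : v ∈ U → v ∈ I := fun h => by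
          by_contra h'
          exact hv (mem_filter.2 ⟨h, h'⟩)
        have hw' : w ∈ U → w ∈ I := fun h => by
          by_contra h'
          exact hw (mem_filter.2 ⟨h, h'⟩)
        dsimp only
        by_cases hvU : v ∈ U
        · by_cases hwU : w ∈ U
          · exact absurd hvw (hI (hv' hvU) (hw' hwU) hvw.ne)
          · rw [if_pos hvU, if_neg hwU]
            have := h1 w hwU
            omega
        · by_cases hwU : w ∈ U
          · rw [if_neg hvU, if_pos hwU]
            have := h1 v hvU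
            omega
          · rw [if_neg hvU, if_neg hwU]
            exact h2 v hvU w hwU hvw
      · have h4 : (U.filter (fun v => v ∈ I)).card + (U.filter (fun v => ¬ v ∈ I)).card = U.card :=
          card_filter_add_card_filter_not _
        have h5 : ((U.filter (fun v => v ∈ I)).card : ℝ) +
            ((U.filter (fun v => ¬ v ∈ I)).card : ℝ) = U.card := by exact_mod_cast h4
        have h6 : 1 - a ≤ Real.exp (-a) := by
          have := Real.add_one_le_exp (-a)
          linarith
        have h7 : (0 : ℝ) ≤ U.card := Nat.cast_nonneg _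
        have h8 := mul_le_mul_of_nonneg_right h6 h7
        have h9 : (0 : ℝ) ≤ Real.exp (-a) := (Real.exp_pos _).le
        have h10 := mul_le_mul_of_nonneg_left h3 h9
        have h11 : Real.exp (-a) * (Fintype.card V * Real.exp (-(j * a))) =
            Fintype.card V * Real.exp (-(((j + 1 : ℕ) : ℝ) * a)) := by
          have : -(((j + 1 : ℕ) : ℝ) * a) = -a + -(j * a) := by
            push_cast
            ring
          rw [this, Real.exp_add]
          ring
        rw [h11] at h10
        linarith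
  obtain ⟨U, C, h1, h2, h3⟩ := step N
  have hU : U = ∅ := by
    rw [← card_eq_zero]
    have : (U.card : ℝ) < 1 := lt_of_le_of_lt h3 hN
    have : U.card < 1 := by exact_mod_cast this
    omega
  subst hU
  refine ⟨SimpleGraph.Coloring.mk (fun v => (⟨C v, h1 v (notMem_empty v)⟩ : Fin N)) ?_⟩
  intro v w hvw h
  have h4 : C v = C w := by
    have := congrArg Fin.val h
    exact this
  exact h2 v (notMem_empty v) w (notMem_empty w) hvw h4

open Classical in
/-- **The chromatic number of graphs without an induced forest.** -/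
theorem colour_forest (m : ℕ) (F : SimpleGraph (Fin m)) (hF : F.IsAcyclic) (k : ℕ) :
    ∃ ε c : ℝ, 0 < ε ∧ ε < 1 ∧ 0 < c ∧ ∀ (V : Type) [Fintype V] (G : SimpleGraph V),
      ¬ F.IsIndContained G → G.CliqueFree k → ∀ d : ℕ,
      (∀ U : Finset V, U.Nonempty → ∃ v ∈ U, (U.filter (fun u => G.Adj v u)).card ≤ d) →
      ∀ N : ℕ, (∀ K : G.ConnectedComponent,
        (K.supp.ncard : ℝ) * Real.exp (-(N * (c / (1 + (d : ℝ)) ^ (1 - ε)))) < 1) →
      G.Colorable N := by
  obtain ⟨ε, c, hε, hε1, hc, H⟩ := Pool.Agent.Results.MP_763321_co.Orientations.result m F hF k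
  refine ⟨ε, c, hε, hε1, hc, ?_⟩
  intro V _ G hFG hfree d hd N hN
  rw [SimpleGraph.colorable_iff_forall_connectedComponent]
  intro K
  have e : K.toSimpleGraph ↪g G := SimpleGraph.Embedding.comap ⟨Subtype.val, Subtype.val_injective⟩ G
  have hF' : ¬ F.IsIndContained K.toSimpleGraph := by
    rintro ⟨f⟩
    exact hFG ⟨f.trans e⟩
  have hfree' : K.toSimpleGraph.CliqueFree k :=
    hfree.comap (SimpleGraph.IsIndContained.isContained ⟨e⟩)
  obtain ⟨-, -, H3⟩ := H K K.toSimpleGraph hF' hfree'
  obtain ⟨p, hp, hprob⟩ := H3 d (by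
    intro U hU
    obtain ⟨v, hv, hvd⟩ := hd (U.map ⟨Subtype.val, Subtype.val_injective⟩) (by
      obtain ⟨u, hu⟩ := hU
      exact ⟨u.1, mem_map.2 ⟨u, hu, rfl⟩⟩)
    obtain ⟨u, hu, rfl⟩ := mem_map.1 hv
    refine ⟨u, hu, le_trans ?_ hvd⟩
    rw [← card_map ⟨Subtype.val, Subtype.val_injective⟩]
    apply card_le_card
    intro x hx
    obtain ⟨y, hy, rfl⟩ := mem_map.1 hx
    rw [mem_filter] at hy
    exact mem_filter.2 ⟨mem_map.2 ⟨y, hy.1, rfl⟩, hy.2⟩)
  refine colour_of_random hp.nonneg hp.total hp.indep hprob N ?_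
  have h1 : (Fintype.card K : ℝ) = (K.supp.ncard : ℝ) := by
    rw [← Nat.card_eq_fintype_card]
    rfl
  rw [h1]
  exact hN K

end Pool.Agent.U797.CB
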